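import Mathlib

/-! Codimensions of families of subspaces permuted by a finite group. -/

set_option autoImplicit false

namespace Pool.Agent.W_52423f_h69

open Module

section

variable {F V : Type*} [Field F] [AddCommGroup V] [Module F V] [FiniteDimensional F V]

/-- Codimension of `P ⊓ N` in `P`. -/
noncomputable def cod (P N : Submodule F V) : ℕ := finrank F P - finrank F (P ⊓ N : Submodule F V)

theorem finrank_inf_add_cod (P N : Submodule F V) :
    finrank F (P ⊓ N : Submodule F V) + cod P N = finrank F P := by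
  have := Submodule.finrank_mono (inf_le_left : P ⊓ N ≤ P)
  unfold cod
  omega

theorem cod_mono_right (P : Submodule F V) {N N' : Submodule F V} (h : N ≤ N') :
    cod P N' ≤ cod P N := by
  have := Submodule.finrank_mono (inf_le_inf_left P h)
  unfold cod
  omega

theorem cod_mono_left {P P' : Submodule F V} (N : Submodule F V) (h : P ≤ P') :
    cod P N ≤ cod P' N := by
  have h1 := Submodule.finrank_sup_add_finrank_inf_eq P (P' ⊓ N)
  have h2 : P ⊓ (P' ⊓ N) = P ⊓ N := by
    rw [← inf_assoc, inf_eq_left.2 h]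
  have h3 := Submodule.finrank_mono (sup_le h inf_le_left : P ⊔ (P' ⊓ N) ≤ P')
  rw [h2] at h1
  have h4 := finrank_inf_add_cod P N
  have h5 := finrank_inf_add_cod P' N
  omega

theorem cod_inf (P M N : Submodule F V) : cod P (M ⊓ N) ≤ cod P M + cod P N := by
  have h1 : cod P (M ⊓ N) = cod P M + cod (P ⊓ M) N := by
    have h2 := finrank_inf_add_cod P M
    have h3 := finrank_inf_add_cod P (M ⊓ N)
    have h4 := finrank_inf_add_cod (P ⊓ M) N
    rw [← inf_assoc] at h3
    omega
  have h5 := cod_mono_left N (inf_le_left : P ⊓ M ≤ P)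
  omega

theorem cod_top (P : Submodule F V) : cod P ⊤ = 0 := by
  have := finrank_inf_add_cod P ⊤
  rw [inf_top_eq] at this
  omega

theorem cod_iInf {X : Type*} (P : Submodule F V) (N : X → Submodule F V) (B : Finset X) :
    cod P (⨅ b ∈ B, N b) ≤ ∑ b ∈ B, cod P (N b) := by
  classical
  induction B using Finset.induction_on with
  | empty => simp [cod_top]
  | insert a s ha ih =>
    rw [Finset.iInf_insert, Finset.sum_insert ha]
    exact (cod_inf _ _ _).trans (Nat.add_le_add_left ih _)

/-- Averaging over a transitive group. -/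
theorem average {X Γ : Type*} [Fintype X] [Group Γ] [Fintype Γ] [MulAction Γ X]
    [MulAction.IsPretransitive Γ X] (f : X → ℕ) (b₀ : X) :
    Fintype.card X * ∑ γ : Γ, f (γ • b₀) = Fintype.card Γ * ∑ b, f b := by
  have h1 : ∀ b : X, ∑ γ : Γ, f (γ • b) = ∑ γ : Γ, f (γ • b₀) := by
    intro b
    obtain ⟨δ, rfl⟩ := MulAction.exists_smul_eq Γ b₀ b
    exact Fintype.sum_equiv (Equiv.mulRight δ) _ _ fun γ => by
      rw [Equiv.coe_mulRight, mul_smul]
  have h2 : ∑ b : X, ∑ γ : Γ, f (γ • b) = Fintype.card X * ∑ γ : Γ, f (γ • b₀) := by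
    rw [Finset.sum_congr rfl fun b _ => h1 b, Finset.sum_const, Finset.card_univ, smul_eq_mul]
  rw [← h2, Finset.sum_comm]
  have h3 : ∀ γ : Γ, ∑ b : X, f (γ • b) = ∑ b, f b := fun γ =>
    Fintype.sum_equiv (MulAction.toPerm γ) _ _ fun b => rfl
  rw [Finset.sum_congr rfl fun γ _ => h3 γ, Finset.sum_const, Finset.card_univ, smul_eq_mul]

theorem column {X Γ : Type*} [Fintype X] [Group Γ] [Fintype Γ] [MulAction Γ X]
    [MulAction.IsPretransitive Γ X] (N : X → Submodule F V) (N₀ : Submodule F V) (B : Finset X)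
    (h : ∀ γ : Γ, ⨅ b ∈ B, N (γ • b) ≤ N₀) (P : Submodule F V) :
    Fintype.card X * cod P N₀ ≤ B.card * ∑ b, cod P (N b) := by
  have h1 : ∀ γ : Γ, cod P N₀ ≤ ∑ b ∈ B, cod P (N (γ • b)) := fun γ =>
    (cod_mono_right P (h γ)).trans (cod_iInf P (fun b => N (γ • b)) B)
  have h2 : Fintype.card Γ * cod P N₀ ≤ ∑ b ∈ B, ∑ γ : Γ, cod P (N (γ • b)) := by
    rw [Finset.sum_comm, ← smul_eq_mul, ← Finset.card_univ, ← Finset.sum_const]
    exact Finset.sum_le_sum fun γ _ => h1 γ
  have h3 : Fintype.card X * ∑ b ∈ B, ∑ γ : Γ, cod P (N (γ • b)) =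
      Fintype.card Γ * (B.card * ∑ b, cod P (N b)) := by
    rw [Finset.mul_sum, Finset.sum_congr rfl fun b _ => average (fun c => cod P (N c)) b,
      Finset.sum_const, smul_eq_mul]
    ring
  have h4 : Fintype.card Γ * (Fintype.card X * cod P N₀) ≤
      Fintype.card Γ * (B.card * ∑ b, cod P (N b)) := by
    rw [← h3]
    calc Fintype.card Γ * (Fintype.card X * cod P N₀)
        = Fintype.card X * (Fintype.card Γ * cod P N₀) := by ring
      _ ≤ _ := Nat.mul_le_mul_left _ h2
  exact Nat.le_of_mul_le_mul_left h4 Fintype.card_pos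

/-- The chain argument. -/
theorem chain {X G : Type*} [Fintype X] [Fintype G] (e : G → X ≃ X) (N : G → X → Submodule F V)
    (N₀ : G → Submodule F V) (Z : X → Submodule F V) (c : ℕ)
    (hZ : ∀ g b, Z b ≤ N g (e g b))
    (hN₀ : ∀ g b, N₀ g ≤ N g b)
    (hcol : ∀ g (P : Submodule F V), Fintype.card X * cod P (N₀ g) ≤ c * ∑ b, cod P (N g b))
    (hbot : ⨅ g, N₀ g = ⊥) :
    Fintype.card X * finrank F V ≤ c * ∑ b, cod (⊤ : Submodule F V) (Z b) := by
  classical
  have key : ∀ S : Finset G, Fintype.card X * finrank F V +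
      c * ∑ b, cod (⨅ g ∈ S, N₀ g) (Z b) ≤
        Fintype.card X * finrank F (⨅ g ∈ S, N₀ g : Submodule F V) +
        c * ∑ b, cod (⊤ : Submodule F V) (Z b) := by
    intro S
    induction S using Finset.induction_on with
    | empty =>
      have h1 : (⨅ g ∈ (∅ : Finset G), N₀ g : Submodule F V) = ⊤ := by simp
      rw [h1, finrank_top]
    | insert g S _ ih =>
      obtain ⟨P, hP⟩ : ∃ P : Submodule F V, P = ⨅ g ∈ S, N₀ g := ⟨_, rfl⟩
      have hP' : (⨅ h ∈ insert g S, N₀ h : Submodule F V) = P ⊓ N₀ g := by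
        rw [Finset.iInf_insert, hP, inf_comm]
      rw [← hP] at ih
      rw [hP']
      have h1 : ∀ b, cod P (N g (e g b)) + cod (P ⊓ N₀ g) (Z b) ≤ cod P (Z b) := by
        intro b
        have h2 := Submodule.finrank_sup_add_finrank_inf_eq (P ⊓ N₀ g) (P ⊓ Z b)
        have h3 : (P ⊓ N₀ g) ⊓ (P ⊓ Z b) = (P ⊓ N₀ g) ⊓ Z b := by
          rw [inf_inf_inf_comm, inf_idem, inf_assoc]
        rw [h3] at h2
        have h4 : (P ⊓ N₀ g) ⊔ (P ⊓ Z b) ≤ P ⊓ N g (e g b) :=
          sup_le (inf_le_inf_left P (hN₀ g _)) (inf_le_inf_left P (hZ g b))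
        have h5 := Submodule.finrank_mono h4
        have h6 := finrank_inf_add_cod P (N g (e g b))
        have h7 := finrank_inf_add_cod (P ⊓ N₀ g) (Z b)
        have h8 := finrank_inf_add_cod P (Z b)
        omega
      have h2 : ∑ b, cod P (N g b) = ∑ b, cod P (N g (e g b)) :=
        (Fintype.sum_equiv (e g) _ _ fun b => rfl).symm
      have h3 : ∑ b, cod P (N g b) + ∑ b, cod (P ⊓ N₀ g) (Z b) ≤ ∑ b, cod P (Z b) := by
        rw [h2, ← Finset.sum_add_distrib]
        exact Finset.sum_le_sum fun b _ => h1 b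
      have h4 := hcol g P
      have h5 := finrank_inf_add_cod P (N₀ g)
      have h6 := Nat.mul_le_mul_left c h3
      have h7 : Fintype.card X * finrank F P = Fintype.card X * finrank F (P ⊓ N₀ g : Submodule F V)
          + Fintype.card X * cod P (N₀ g) := by rw [← h5]; ring
      rw [Nat.mul_add] at h6
      omega
  have h1 := key Finset.univ
  have h2 : (⨅ g ∈ (Finset.univ : Finset G), N₀ g : Submodule F V) = ⊥ := by
    rw [← hbot]
    simp
  rw [h2, finrank_bot] at h1
  have h3 : ∀ b, cod (⊥ : Submodule F V) (Z b) = 0 := by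
    intro b
    have := finrank_inf_add_cod (⊥ : Submodule F V) (Z b)
    rw [finrank_bot] at this
    omega
  simp only [h3, Finset.sum_const_zero, mul_zero, add_zero, zero_add] at h1
  exact h1

/-- A subset of at most `dim` members with the same supremum. -/
theorem exists_basis {X : Type*} (R : X → Submodule F V) (S : Finset X) :
    ∃ B : Finset X, B.card ≤ finrank F (⨆ b ∈ S, R b : Submodule F V) ∧
      (⨆ b ∈ B, R b) = ⨆ b ∈ S, R b := by
  classical
  induction S using Finset.induction_on with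
  | empty => exact ⟨∅, by simp, rfl⟩
  | insert a s ha ih =>
    obtain ⟨B, hB, hs⟩ := ih
    rw [Finset.iSup_insert]
    by_cases h : R a ≤ ⨆ b ∈ s, R b
    · refine ⟨B, ?_, ?_⟩
      · rw [sup_eq_right.2 h]
        exact hB
      · rw [sup_eq_right.2 h, hs]
    · refine ⟨insert a B, ?_, ?_⟩
      · have h1 : (⨆ b ∈ s, R b) < R a ⊔ ⨆ b ∈ s, R b := by
          refine lt_of_le_of_ne le_sup_right fun e => h ?_
          rw [e]
          exact le_sup_left
        have h2 := Submodule.finrank_lt_finrank_of_lt h1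
        have h3 := Finset.card_insert_le a B
        omega
      · rw [Finset.iSup_insert, hs]

end

end Pool.Agent.W_52423f_h69
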