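import Pool.Agent.W_52423f_h69.Pad

/-! The statement for logarithm maps. -/

set_option autoImplicit false
set_option linter.unusedSectionVars false
set_option linter.style.haveILetI false

namespace Pool.Agent.W_52423f_h69

open Module TensorProduct

theorem tensor_zero {Ω Ω' T : Type*} [Field Ω] [Field Ω'] [Algebra Ω Ω'] [AddCommGroup T]
    [Module Ω T] {m : ℕ} (a : Fin m → Ω') (x : Fin m → T)
    (h : ∀ φ : T →ₗ[Ω] Ω', ∑ i, a i * φ (x i) = 0) : ∑ i, a i ⊗ₜ[Ω] x i = 0 := by
  classical
  let β := Basis.ofVectorSpace Ω T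
  let B := Algebra.TensorProduct.basis Ω' β
  apply B.repr.injective
  rw [map_zero]
  ext j
  rw [Finsupp.zero_apply, map_sum, Finsupp.finsetSum_apply]
  rw [← h ((Algebra.linearMap Ω Ω') ∘ₗ (β.coord j))]
  refine Finset.sum_congr rfl fun i _ => ?_
  rw [Algebra.TensorProduct.basis_repr_tmul]
  simp [Algebra.linearMap_apply, Finsupp.smul_apply]

theorem final (p : ℕ) [Fact p.Prime] (K : Type*) [Field K] [NumberField K] (V : Type*)
    [AddCommGroup V] [Module K V] (T : Type*) [AddCommGroup T] [Module ℚ_[p] T] [Module ℤ_[p] T]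
    [IsScalarTower ℤ_[p] ℚ_[p] T] [Module K T] [SMulCommClass ℚ_[p] K T] [TopologicalSpace T]
    [IsTopologicalAddGroup T] [ContinuousSMul ℚ_[p] T] [T2Space T] (log : V →ₗ[K] T)
    (L : AddSubgroup V) (hL : L.FG)
    (h : (IsField (ℚ_[p] ⊗[ℚ] K) ∧ ∀ x ∈ L, log x = 0 → x = 0) ∨
      ∀ (n : ℕ) (v : Fin n → V), (∀ i, v i ∈ L) → LinearIndependent ℤ v →
        ∀ a : Fin n → AlgebraicClosure ℚ_[p], (∀ i, IsAlgebraic ℚ (a i)) →
          ∑ i, a i ⊗ₜ[ℚ_[p]] log (v i) = 0 → a = 0) :
    ∃ H : Submodule ℤ_[p] T, (H : Set T) = closure (log '' L) ∧ Module.Finite ℤ_[p] H ∧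
      Module.Free ℤ_[p] H ∧ finrank ℤ_[p] H ≤ finrank ℤ L ∧
      finrank ℤ L ≤ finrank K (Submodule.span K (L : Set V)) * finrank ℤ_[p] H := by
  classical
  letI : Module ℚ V := Module.compHom V (algebraMap ℚ K)
  letI : Module ℚ T := Module.compHom T (algebraMap ℚ ℚ_[p])
  haveI : IsScalarTower ℚ ℚ_[p] T := ⟨fun a b y => by
    rw [Algebra.smul_def, mul_smul]
    rfl⟩
  haveI : IsScalarTower ℚ K T := IsScalarTower.rat
  -- a basis of `L`
  haveI : Module.Finite ℤ L := by
    rw [Module.Finite.iff_addGroup_fg]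
    exact (AddGroup.fg_iff_addSubgroup_fg L).2 hL
  haveI : Module.IsTorsionFree ℤ V := Module.IsTorsionFree.trans_faithfulSMul ℤ ℚ V
  haveI : Module.IsTorsionFree ℤ L :=
    inferInstanceAs (Module.IsTorsionFree ℤ (AddSubgroup.toIntSubmodule L))
  haveI : Module.Free ℤ L := Module.free_of_finite_type_torsion_free'
  obtain ⟨m, hm⟩ : ∃ m, m = finrank ℤ L := ⟨_, rfl⟩
  let β : Basis (Fin m) ℤ L := (Module.finBasis ℤ L).reindex (finCongr hm.symm)
  let v : Fin m → V := fun i => (β i : V)
  have hvL : ∀ i, v i ∈ L := fun i => (β i).2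
  have hv : LinearIndependent ℤ v :=
    β.linearIndependent.map' (AddSubgroup.toIntSubmodule L).subtype
      (Submodule.ker_subtype _)
  have hspan : (L : Set V) = Submodule.span ℤ (Set.range v) := by
    ext y
    constructor
    · intro hy
      have h4 : y = ∑ l, β.repr ⟨y, hy⟩ l • (β l : V) := by
        have := congrArg L.subtype (β.sum_repr ⟨y, hy⟩).symm
        rw [map_sum] at this
        exact this
      rw [h4]
      exact Submodule.sum_mem _ fun l _ => Submodule.smul_mem _ _ (Submodule.subset_span ⟨l, rfl⟩)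
    · intro hy
      have h4 : Submodule.span ℤ (Set.range v) ≤ AddSubgroup.toIntSubmodule L := by
        rw [Submodule.span_le]
        rintro _ ⟨i, rfl⟩
        exact hvL i
      exact h4 hy
  let x : Fin m → T := fun i => log (v i)
  have himage : log '' (L : Set V) = (Submodule.span ℤ (Set.range x) : Submodule ℤ T) := by
    rw [hspan]
    have h1 : (Submodule.span ℤ (Set.range v)).map (log.restrictScalars ℤ) =
        Submodule.span ℤ (Set.range x) := by
      rw [Submodule.map_span]
      congr 1
      ext y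
      simp [x]
    rw [← h1]
    rfl
  obtain ⟨hfin, hfree, hrk⟩ := finrank_zp (p := p) x
  have hle : finrank ℚ_[p] (Submodule.span ℚ_[p] (Set.range x)) ≤ m := by
    refine (finrank_range_le_card x).trans ?_
    rw [Fintype.card_fin]
  -- the dimension over `K`
  have hfdK : FiniteDimensional K (Submodule.span K (L : Set V)) := by
    have h1 : Submodule.span K (L : Set V) = Submodule.span K (Set.range v) := by
      apply le_antisymm
      · rw [Submodule.span_le, hspan]
        have h4 : Submodule.span ℤ (Set.range v) ≤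
            (Submodule.span K (Set.range v)).restrictScalars ℤ :=
          Submodule.span_le.2 Submodule.subset_span
        exact h4
      · rw [Submodule.span_le]
        rintro _ ⟨i, rfl⟩
        exact Submodule.subset_span (hvL i)
    rw [h1]
    exact FiniteDimensional.span_of_finite K (Set.finite_range v)
  have hK : finrank K (Submodule.span K (Set.range x)) ≤
      finrank K (Submodule.span K (L : Set V)) := by
    have h1 : Submodule.span K (Set.range x) ≤ (Submodule.span K (L : Set V)).map log := by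
      rw [Submodule.span_le]
      rintro _ ⟨i, rfl⟩
      exact ⟨v i, Submodule.subset_span (hvL i), rfl⟩
    exact (Submodule.finrank_mono h1).trans (Submodule.finrank_map_le log _)
  have main : m ≤ finrank ℚ_[p] (Submodule.span ℚ_[p] (Set.range x)) *
      finrank K (Submodule.span K (Set.range x)) := by
    rcases h with ⟨hF, hinj⟩ | h
    · refine ineq_field (k := ℚ) hF x ?_
      rw [← LinearIndependent.iff_fractionRing ℤ ℚ, Fintype.linearIndependent_iff]
      intro c hc
      have h1 : log (∑ i, c i • v i) = 0 := by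
        rw [map_sum, ← hc]
        refine Finset.sum_congr rfl fun i _ => ?_
        rw [map_zsmul]
      have h2 : ∑ i, c i • v i = 0 := hinj _ (sum_mem fun i _ => zsmul_mem (hvL i) _) h1
      exact Fintype.linearIndependent_iff.1 hv c h2
    · refine ineq_indep (k := ℚ) x fun a ha hφ => ?_
      exact h m v hvL hv a ha (tensor_zero a x hφ)
  refine ⟨Submodule.span ℤ_[p] (Set.range x), ?_, hfin, hfree, ?_, ?_⟩
  · rw [closure_zspan, himage]
  · rw [hrk, ← hm]
    exact hle
  · rw [hrk, ← hm]
    calc m ≤ _ := main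
      _ ≤ finrank ℚ_[p] (Submodule.span ℚ_[p] (Set.range x)) *
          finrank K (Submodule.span K (L : Set V)) := Nat.mul_le_mul_left _ hK
      _ = _ := mul_comm _ _

end Pool.Agent.W_52423f_h69
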