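import Pool.Agent.W_52423f_h69.Main

/-! The normal closure of `K` in an algebraic closure of `Ω`. -/

set_option autoImplicit false
set_option linter.unusedSectionVars false

namespace Pool.Agent.W_52423f_h69

open Module Polynomial IntermediateField TensorProduct

section

variable {k K Ω T : Type*} [Field k] [CharZero k] [Field K] [Algebra k K] [FiniteDimensional k K]
  [Field Ω] [Algebra k Ω] [AddCommGroup T] [Module Ω T] [Module K T]
  [SMulCommClass Ω K T] [Module k T] [IsScalarTower k Ω T] [IsScalarTower k K T]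

variable (k K Ω) in
/-- The normal closure of `K` in an algebraic closure of `Ω`. -/
noncomputable abbrev NC : IntermediateField k (AlgebraicClosure Ω) :=
  normalClosure k K (AlgebraicClosure Ω)

theorem isNormalClosure_NC : IsNormalClosure k K (NC k K Ω) :=
  Algebra.IsAlgebraic.isNormalClosure_normalClosure fun _ => IsAlgClosed.splits _

theorem normal_NC : Normal k (NC k K Ω) :=
  haveI := isNormalClosure_NC (k := k) (K := K) (Ω := Ω)
  IsNormalClosure.normal (K := K)

theorem splits_NC (a : K) : ((minpoly k a).map (algebraMap k (NC k K Ω))).Splits :=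
  (isNormalClosure_NC (k := k) (K := K) (Ω := Ω)).splits a

theorem nonempty_emb : Nonempty (K →ₐ[k] NC k K Ω) := by
  let f : K →ₐ[k] AlgebraicClosure Ω := IsAlgClosed.lift
  exact ⟨f.codRestrict (NC k K Ω).toSubalgebra fun x => f.fieldRange_le_normalClosure ⟨x, rfl⟩⟩

theorem separates (y : T) (h : ∀ φ : T →ₗ[Ω] AlgebraicClosure Ω, φ y = 0) : y = 0 := by
  rw [← Module.forall_dual_apply_eq_zero_iff Ω y]
  intro φ
  have h1 := h ((Algebra.linearMap Ω (AlgebraicClosure Ω)) ∘ₗ φ)
  have h2 : algebraMap Ω (AlgebraicClosure Ω) (φ y) = 0 := h1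
  exact (map_eq_zero_iff _ (algebraMap Ω (AlgebraicClosure Ω)).injective).1 h2

/-- Embeddings are conjugate over `Ω` if `Ω ⊗ K` is a field. -/
theorem conj_of_isField (hF : IsField (Ω ⊗[k] K)) (b b' : K →ₐ[k] AlgebraicClosure Ω) :
    ∃ σ : AlgebraicClosure Ω ≃ₐ[Ω] AlgebraicClosure Ω, ∀ a, σ (b a) = b' a := by
  let pb := Field.powerBasisOfFiniteOfSeparable k K
  have key : ∀ c : K →ₐ[k] AlgebraicClosure Ω,
      minpoly Ω (c pb.gen) = minpoly Ω ((1 : Ω) ⊗ₜ[k] pb.gen) := by
    intro c
    let h : Ω ⊗[k] K →ₐ[Ω] AlgebraicClosure Ω :=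
      Algebra.TensorProduct.lift (Algebra.ofId Ω (AlgebraicClosure Ω)) c fun _ _ => Commute.all _ _
    have hinj : Function.Injective h := by
      rw [injective_iff_map_eq_zero]
      intro z hz
      by_contra hne
      obtain ⟨w, hw⟩ := hF.mul_inv_cancel hne
      have : h (z * w) = 1 := by rw [hw, map_one]
      rw [map_mul, hz, zero_mul] at this
      exact zero_ne_one this
    have h1 : h ((1 : Ω) ⊗ₜ[k] pb.gen) = c pb.gen := by
      rw [Algebra.TensorProduct.lift_tmul, map_one, one_mul]
    rw [← h1, minpoly.algHom_eq h hinj]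
  have hint : IsIntegral Ω (b pb.gen) := Algebra.IsIntegral.isIntegral _
  obtain ⟨σ, hσ⟩ := minpoly.exists_algEquiv_of_root' (K := Ω) (L := AlgebraicClosure Ω)
    (x := b' pb.gen) (y := b pb.gen) hint.isAlgebraic (by
      rw [key b, ← key b', minpoly.aeval])
  refine ⟨σ, fun a => ?_⟩
  have ha : a ∈ Algebra.adjoin k {pb.gen} := by
    rw [pb.adjoin_gen_eq_top]
    exact Algebra.mem_top
  induction ha using Algebra.adjoin_induction with
  | mem y hy =>
    rw [Set.mem_singleton_iff] at hy
    subst hy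
    exact hσ
  | algebraMap c =>
    rw [AlgHom.commutes, AlgHom.commutes, IsScalarTower.algebraMap_apply k Ω, AlgEquiv.commutes]
  | add y z _ _ hy hz => rw [map_add, map_add, hy, hz, map_add]
  | mul y z _ _ hy hz => rw [map_mul, map_mul, hy, hz, map_mul]

theorem trans_NC (hF : IsField (Ω ⊗[k] K)) (b b' : K →ₐ[k] NC k K Ω) :
    ∃ γ ∈ Dec k (NC k K Ω) Ω (AlgebraicClosure Ω), γ • b = b' := by
  obtain ⟨σ, hσ⟩ := conj_of_isField hF ((NC k K Ω).val.comp b) ((NC k K Ω).val.comp b')
  haveI := normal_NC (k := k) (K := K) (Ω := Ω)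
  refine ⟨AlgEquiv.restrictNormal (σ.restrictScalars k) (NC k K Ω), ⟨σ, fun c => ?_⟩, ?_⟩
  · exact (AlgEquiv.restrictNormal_commutes (σ.restrictScalars k) (NC k K Ω) c).symm
  · apply AlgHom.ext
    intro a
    apply (algebraMap (NC k K Ω) (AlgebraicClosure Ω)).injective
    rw [act_apply, AlgEquiv.restrictNormal_commutes]
    exact hσ a

/-- `dim_k E ≤ dim_Ω (Ω E) * dim_K (K E)` if `Ω ⊗ K` is a field. -/
theorem ineq_field (hF : IsField (Ω ⊗[k] K)) {m : ℕ} (x : Fin m → T)
    (hx : LinearIndependent k x) :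
    m ≤ finrank Ω (Submodule.span Ω (Set.range x)) *
      finrank K (Submodule.span K (Set.range x)) := by
  haveI := normal_NC (k := k) (K := K) (Ω := Ω)
  haveI := nonempty_emb (k := k) (K := K) (Ω := Ω)
  haveI : IsGalois k (NC k K Ω) := ⟨⟩
  exact main_ineq (K' := NC k K Ω) (Ω' := AlgebraicClosure Ω) splits_NC (trans_NC hF) separates x hx

/-- The same for vectors which are independent over the elements algebraic over `k`. -/
theorem ineq_indep {m : ℕ} (x : Fin m → T)
    (hx : ∀ a : Fin m → AlgebraicClosure Ω, (∀ i, IsAlgebraic k (a i)) →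
      (∀ φ : T →ₗ[Ω] AlgebraicClosure Ω, ∑ i, a i * φ (x i) = 0) → a = 0) :
    m ≤ finrank Ω (Submodule.span Ω (Set.range x)) *
      finrank K (Submodule.span K (Set.range x)) := by
  haveI := normal_NC (k := k) (K := K) (Ω := Ω)
  refine main_indep (K' := NC k K Ω) (Ω' := AlgebraicClosure Ω) splits_NC x fun a ha => ?_
  have h1 := hx (fun i => algebraMap (NC k K Ω) (AlgebraicClosure Ω) (a i)) (fun i => by
    have h2 : IsAlgebraic k (a i) := Algebra.IsAlgebraic.isAlgebraic (a i)
    exact h2.algebraMap) ha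
  funext i
  have h2 := congrFun h1 i
  exact (map_eq_zero_iff _ (algebraMap (NC k K Ω) (AlgebraicClosure Ω)).injective).1 h2

end

end Pool.Agent.W_52423f_h69
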