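import Pool.Agent.W_52423f_h69.Rows

/-! `dim_k E ≤ dim_K (K E) * dim_Ω (Ω E)` when `K ⊗ Ω` is a field. -/

set_option autoImplicit false
set_option linter.unusedSectionVars false
set_option linter.style.haveILetI false

namespace Pool.Agent.W_52423f_h69

open Module Polynomial

section

variable {k K K' Ω Ω' T : Type*} [Field k] [Field K] [Algebra k K] [Field K'] [Algebra k K']
  [Field Ω] [Field Ω'] [Algebra Ω Ω'] [Algebra K' Ω'] [Algebra k Ω] [Algebra k Ω']
  [IsScalarTower k K' Ω'] [IsScalarTower k Ω Ω'] [AddCommGroup T] [Module Ω T] [Module K T]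
  [SMulCommClass Ω K T] [Module k T] [IsScalarTower k Ω T] [IsScalarTower k K T]

variable (k K' Ω Ω') in
/-- The automorphisms of `K'` over `k` which extend to automorphisms of `Ω'` over `Ω`. -/
def Dec : Subgroup (K' ≃ₐ[k] K') where
  carrier := {γ | ∃ σ : Ω' ≃ₐ[Ω] Ω', ∀ c : K', σ (algebraMap K' Ω' c) = algebraMap K' Ω' (γ c)}
  mul_mem' := by
    rintro γ δ ⟨σ, hσ⟩ ⟨τ, hτ⟩
    refine ⟨σ * τ, fun c => ?_⟩
    rw [AlgEquiv.mul_apply, hτ, hσ, AlgEquiv.mul_apply]
  one_mem' := ⟨1, fun c => rfl⟩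
  inv_mem' := by
    rintro γ ⟨σ, hσ⟩
    refine ⟨σ⁻¹, fun c => ?_⟩
    have h1 := hσ (γ⁻¹ c)
    have h2 : γ (γ⁻¹ c) = c := by
      rw [← AlgEquiv.mul_apply, mul_inv_cancel, AlgEquiv.one_apply]
    rw [h2] at h1
    rw [← h1, ← AlgEquiv.mul_apply, inv_mul_cancel, AlgEquiv.one_apply]

/-- The action of automorphisms on embeddings. -/
instance actEmb : MulAction (K' ≃ₐ[k] K') (K →ₐ[k] K') where
  smul γ b := (γ : K' →ₐ[k] K').comp b
  one_smul b := by
    apply AlgHom.ext
    intro a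
    rfl
  mul_smul γ δ b := by
    apply AlgHom.ext
    intro a
    rfl

theorem act_apply (γ : K' ≃ₐ[k] K') (b : K →ₐ[k] K') (a : K) : (γ • b) a = γ (b a) := rfl

theorem row_comp {γ : K' ≃ₐ[k] K'} {σ : Ω' ≃ₐ[Ω] Ω'}
    (hσ : ∀ c : K', σ (algebraMap K' Ω' c) = algebraMap K' Ω' (γ c)) {b : K →ₐ[k] K'}
    {φ : T →ₗ[Ω] Ω'} (hφ : φ ∈ Row Ω Ω' T b) :
    σ.toLinearMap ∘ₗ φ ∈ Row Ω Ω' T (γ • b) := by
  intro a x
  show σ (φ (a • x)) = algebraMap K' Ω' ((γ • b) a) * σ (φ x)
  rw [hφ a x, map_mul, hσ, act_apply]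

/-- The relations in column `g` and row `b`. -/
def NN (Ω Ω' : Type*) {T : Type*} [Field Ω] [Field Ω'] [Algebra Ω Ω'] [Algebra K' Ω']
    [AddCommGroup T] [Module Ω T] [Module K T] {m : ℕ} (x : Fin m → T) (g : K' ≃ₐ[k] K')
    (b : K →ₐ[k] K') : Submodule K' (Fin m → K') where
  carrier := {a | ∀ φ ∈ Row Ω Ω' T b, ∑ i, algebraMap K' Ω' (g (a i)) * φ (x i) = 0}
  add_mem' := by
    intro a c ha hc φ hφ
    have : ∑ i, algebraMap K' Ω' (g ((a + c) i)) * φ (x i) =
        ∑ i, algebraMap K' Ω' (g (a i)) * φ (x i) + ∑ i, algebraMap K' Ω' (g (c i)) * φ (x i) := by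
      rw [← Finset.sum_add_distrib]
      exact Finset.sum_congr rfl fun i _ => by rw [Pi.add_apply, map_add, map_add, add_mul]
    rw [this, ha φ hφ, hc φ hφ, add_zero]
  zero_mem' := by
    intro φ _
    simp
  smul_mem' := by
    intro c a ha φ hφ
    have : ∑ i, algebraMap K' Ω' (g ((c • a) i)) * φ (x i) =
        algebraMap K' Ω' (g c) * ∑ i, algebraMap K' Ω' (g (a i)) * φ (x i) := by
      rw [Finset.mul_sum]
      exact Finset.sum_congr rfl fun i _ => by
        rw [Pi.smul_apply, smul_eq_mul, map_mul, map_mul, mul_assoc]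
    rw [this, ha φ hφ, mul_zero]

/-- The relations in column `g`. -/
def N0 (Ω Ω' : Type*) {T : Type*} [Field Ω] [Field Ω'] [Algebra Ω Ω'] [Algebra K' Ω']
    [AddCommGroup T] [Module Ω T] {m : ℕ} (x : Fin m → T) (g : K' ≃ₐ[k] K') :
    Submodule K' (Fin m → K') where
  carrier := {a | ∀ φ : T →ₗ[Ω] Ω', ∑ i, algebraMap K' Ω' (g (a i)) * φ (x i) = 0}
  add_mem' := by
    intro a c ha hc φ
    have : ∑ i, algebraMap K' Ω' (g ((a + c) i)) * φ (x i) =
        ∑ i, algebraMap K' Ω' (g (a i)) * φ (x i) + ∑ i, algebraMap K' Ω' (g (c i)) * φ (x i) := by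
      rw [← Finset.sum_add_distrib]
      exact Finset.sum_congr rfl fun i _ => by rw [Pi.add_apply, map_add, map_add, add_mul]
    rw [this, ha φ, hc φ, add_zero]
  zero_mem' := by
    intro φ
    simp
  smul_mem' := by
    intro c a ha φ
    have : ∑ i, algebraMap K' Ω' (g ((c • a) i)) * φ (x i) =
        algebraMap K' Ω' (g c) * ∑ i, algebraMap K' Ω' (g (a i)) * φ (x i) := by
      rw [Finset.mul_sum]
      exact Finset.sum_congr rfl fun i _ => by
        rw [Pi.smul_apply, smul_eq_mul, map_mul, map_mul, mul_assoc]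
    rw [this, ha φ, mul_zero]

/-- The relations over `K'` which hold in row `b` because of the relations over `K`. -/
def ZZ {m r : ℕ} (α : Fin m → Fin r → K) (b : K →ₐ[k] K') : Submodule K' (Fin m → K') where
  carrier := {a | ∀ j, ∑ i, a i * b (α i j) = 0}
  add_mem' := by
    intro a c ha hc j
    have : ∑ i, (a + c) i * b (α i j) = ∑ i, a i * b (α i j) + ∑ i, c i * b (α i j) := by
      rw [← Finset.sum_add_distrib]
      exact Finset.sum_congr rfl fun i _ => by rw [Pi.add_apply, add_mul]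
    rw [this, ha j, hc j, add_zero]
  zero_mem' := by
    intro j
    simp
  smul_mem' := by
    intro c a ha j
    have : ∑ i, (c • a) i * b (α i j) = c * ∑ i, a i * b (α i j) := by
      rw [Finset.mul_sum]
      exact Finset.sum_congr rfl fun i _ => by rw [Pi.smul_apply, smul_eq_mul, mul_assoc]
    rw [this, ha j, mul_zero]

theorem cod_ZZ {m r : ℕ} (α : Fin m → Fin r → K) (b : K →ₐ[k] K') :
    cod (⊤ : Submodule K' (Fin m → K')) (ZZ α b) ≤ r := by
  let F : (Fin m → K') →ₗ[K'] (Fin r → K') :=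
    { toFun := fun a j => ∑ i, a i * b (α i j)
      map_add' := fun a c => by
        funext j
        simp [add_mul, Finset.sum_add_distrib]
      map_smul' := fun c a => by
        funext j
        simp [Finset.mul_sum, mul_assoc] }
  have h1 : LinearMap.ker F = ZZ α b := by
    ext a
    rw [LinearMap.mem_ker]
    constructor
    · intro h j
      exact congrFun h j
    · intro h
      funext j
      exact h j
  have h2 := LinearMap.finrank_range_add_finrank_ker F
  have h3 : finrank K' (LinearMap.range F) ≤ r := by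
    refine (Submodule.finrank_le _).trans ?_
    rw [finrank_fin_fun]
  have h4 := finrank_inf_add_cod (⊤ : Submodule K' (Fin m → K')) (ZZ α b)
  rw [top_inf_eq, finrank_top] at h4
  rw [h1] at h2
  omega

theorem ZZ_le {m r : ℕ} (x : Fin m → T) (w : Fin r → T) (α : Fin m → Fin r → K)
    (hx : ∀ i, x i = ∑ j, α i j • w j) (g : K' ≃ₐ[k] K') (b : K →ₐ[k] K') :
    ZZ α b ≤ NN Ω Ω' x g (g • b) := by
  intro a ha φ hφ
  have h1 : ∑ i, algebraMap K' Ω' (g (a i)) * φ (x i) =
      ∑ j, algebraMap K' Ω' (g (∑ i, a i * b (α i j))) * φ (w j) := by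
    have h2 : ∀ i, algebraMap K' Ω' (g (a i)) * φ (x i) =
        ∑ j, algebraMap K' Ω' (g (a i * b (α i j))) * φ (w j) := by
      intro i
      rw [hx i, map_sum, Finset.mul_sum]
      refine Finset.sum_congr rfl fun j _ => ?_
      rw [hφ, act_apply, map_mul, map_mul, mul_assoc]
    rw [Finset.sum_congr rfl fun i _ => h2 i, Finset.sum_comm]
    refine Finset.sum_congr rfl fun j _ => ?_
    rw [map_sum, map_sum, Finset.sum_mul]
  rw [h1]
  exact Finset.sum_eq_zero fun j _ => by rw [ha j, map_zero, map_zero, zero_mul]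

theorem N0_le_NN {m : ℕ} (x : Fin m → T) (g : K' ≃ₐ[k] K') (b : K →ₐ[k] K') :
    N0 Ω Ω' x g ≤ NN Ω Ω' x g b := fun _ ha φ _ => ha φ

/-- Relations in the rows of `γ B` are relations. -/
theorem iInf_rows [FiniteDimensional k K] [Algebra.IsSeparable k K] {m : ℕ} (x : Fin m → T)
    (B : Finset (K →ₐ[k] K'))
    (hB : ∀ c : Fin m → Ω', (∀ b ∈ B, ∀ φ ∈ Row Ω Ω' T b, ∑ i, c i * φ (x i) = 0) →
        ∀ ψ : T →ₗ[Ω] Ω', ∑ i, c i * ψ (x i) = 0) (g : K' ≃ₐ[k] K') (γ : Dec k K' Ω Ω') :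
    ⨅ b ∈ B, NN Ω Ω' x g ((γ : K' ≃ₐ[k] K') • b) ≤ N0 Ω Ω' x g := by
  intro a ha ψ
  obtain ⟨γ, σ, hσ⟩ := γ
  simp only [Submodule.mem_iInf] at ha
  have h1 := hB (fun i => σ.symm (algebraMap K' Ω' (g (a i)))) (by
    intro b hb φ hφ
    have h2 := ha b hb _ (row_comp hσ hφ)
    have h3 : ∑ i, algebraMap K' Ω' (g (a i)) * σ (φ (x i)) = 0 := h2
    have h4 : σ (∑ i, σ.symm (algebraMap K' Ω' (g (a i))) * φ (x i)) = 0 := by
      rw [← h3, map_sum]
      refine Finset.sum_congr rfl fun i _ => ?_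
      rw [map_mul, AlgEquiv.apply_symm_apply]
    exact (map_eq_zero_iff σ σ.injective).1 h4) (σ.symm.toLinearMap ∘ₗ ψ)
  have h2 : σ (∑ i, σ.symm (algebraMap K' Ω' (g (a i))) * (σ.symm.toLinearMap ∘ₗ ψ) (x i)) = 0 := by
    rw [h1, map_zero]
  rw [map_sum] at h2
  rw [← h2]
  refine Finset.sum_congr rfl fun i _ => ?_
  rw [map_mul, AlgEquiv.apply_symm_apply]
  show _ = _ * σ (σ.symm (ψ (x i)))
  rw [AlgEquiv.apply_symm_apply]

/-- There are no relations common to all columns. -/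
theorem iInf_N0 [FiniteDimensional k K'] [IsGalois k K'] {m : ℕ} (x : Fin m → T)
    (hx : LinearIndependent k x) (hT : ∀ y : T, (∀ φ : T →ₗ[Ω] Ω', φ y = 0) → y = 0) :
    ⨅ g : K' ≃ₐ[k] K', N0 Ω Ω' x g = ⊥ := by
  classical
  rw [eq_bot_iff]
  intro a ha
  rw [Submodule.mem_iInf] at ha
  rw [Submodule.mem_bot]
  have h1 : ∀ c : K', ∀ i, Algebra.trace k K' (c * a i) = 0 := by
    intro c
    have h2 : ∑ i, Algebra.trace k K' (c * a i) • x i = 0 := by
      refine hT _ fun φ => ?_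
      have h3 : ∀ g : K' ≃ₐ[k] K', ∑ i, algebraMap K' Ω' (g (c * a i)) * φ (x i) = 0 :=
        fun g => (N0 Ω Ω' x g).smul_mem c (ha g) φ
      have h4 : ∑ g : K' ≃ₐ[k] K', ∑ i, algebraMap K' Ω' (g (c * a i)) * φ (x i) = 0 :=
        Finset.sum_eq_zero fun g _ => h3 g
      rw [Finset.sum_comm] at h4
      rw [map_sum, ← h4]
      refine Finset.sum_congr rfl fun i _ => ?_
      rw [← Finset.sum_mul, ← map_sum, ← trace_eq_sum_automorphisms,
        ← IsScalarTower.algebraMap_apply, ← algebraMap_smul Ω (Algebra.trace k K' (c * a i)) (x i),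
        map_smul, algebraMap_smul, Algebra.smul_def]
    exact fun i => Fintype.linearIndependent_iff.1 hx _ h2 i
  funext i
  have h2 := traceForm_nondegenerate k K'
  refine h2.1 (a i) fun c => ?_
  rw [Algebra.traceForm_apply, mul_comm]
  exact h1 c i

/-- The inequality. -/
theorem main_ineq [FiniteDimensional k K] [Algebra.IsSeparable k K] [FiniteDimensional k K']
    [IsGalois k K'] [Nonempty (K →ₐ[k] K')]
    (hsplit : ∀ a : K, ((minpoly k a).map (algebraMap k K')).Splits)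
    (htrans : ∀ b b' : K →ₐ[k] K', ∃ γ ∈ Dec k K' Ω Ω', γ • b = b')
    (hT : ∀ y : T, (∀ φ : T →ₗ[Ω] Ω', φ y = 0) → y = 0)
    {m : ℕ} (x : Fin m → T) (hx : LinearIndependent k x) :
    m ≤ finrank Ω (Submodule.span Ω (Set.range x)) *
      finrank K (Submodule.span K (Set.range x)) := by
  classical
  letI : Fintype (K →ₐ[k] K') := Fintype.ofFinite _
  letI : Fintype (Dec k K' Ω Ω') := Fintype.ofFinite _
  obtain ⟨B, hBc, hB⟩ := exists_rows (Ω := Ω) (Ω' := Ω') hsplit x
  have hfd : FiniteDimensional K (Submodule.span K (Set.range x)) :=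
    FiniteDimensional.span_of_finite K (Set.finite_range x)
  let u := Module.finBasis K (Submodule.span K (Set.range x))
  have hxm : ∀ i, x i ∈ Submodule.span K (Set.range x) := fun i => Submodule.subset_span ⟨i, rfl⟩
  have hexp : ∀ i, x i = ∑ l, u.repr ⟨x i, hxm i⟩ l • (u l : T) := by
    intro i
    have := congrArg (Submodule.subtype _) (u.sum_repr ⟨x i, hxm i⟩).symm
    rw [map_sum] at this
    exact this
  haveI : MulAction.IsPretransitive (Dec k K' Ω Ω') (K →ₐ[k] K') := by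
    refine ⟨fun b b' => ?_⟩
    obtain ⟨γ, hγ, h⟩ := htrans b b'
    exact ⟨⟨γ, hγ⟩, h⟩
  have h1 := chain (F := K') (V := Fin m → K') (X := K →ₐ[k] K') (G := K' ≃ₐ[k] K')
    (fun g => MulAction.toPerm g) (fun g b => NN Ω Ω' x g b) (fun g => N0 Ω Ω' x g)
    (fun b => ZZ (fun i j => u.repr ⟨x i, hxm i⟩ j) b) B.card
    (fun g b => ZZ_le x (fun j => (u j : T)) _ hexp g b)
    (fun g b => N0_le_NN x g b)
    (fun g P => column (Γ := Dec k K' Ω Ω') (fun b => NN Ω Ω' x g b) (N0 Ω Ω' x g) B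
      (fun γ => iInf_rows x B hB g γ) P)
    (iInf_N0 x hx hT)
  have h2 : ∑ b : K →ₐ[k] K', cod (⊤ : Submodule K' (Fin m → K'))
      (ZZ (fun i j => u.repr ⟨x i, hxm i⟩ j) b) ≤
      Fintype.card (K →ₐ[k] K') * finrank K (Submodule.span K (Set.range x)) := by
    rw [← smul_eq_mul, ← Finset.card_univ, ← Finset.sum_const]
    exact Finset.sum_le_sum fun b _ => cod_ZZ _ b
  have h3 : Fintype.card (K →ₐ[k] K') * m ≤ Fintype.card (K →ₐ[k] K') *
      (finrank Ω (Submodule.span Ω (Set.range x)) *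
        finrank K (Submodule.span K (Set.range x))) := by
    rw [finrank_fin_fun] at h1
    refine h1.trans ((Nat.mul_le_mul_left _ h2).trans ?_)
    calc B.card * (Fintype.card (K →ₐ[k] K') * finrank K (Submodule.span K (Set.range x)))
        ≤ finrank Ω (Submodule.span Ω (Set.range x)) *
          (Fintype.card (K →ₐ[k] K') * finrank K (Submodule.span K (Set.range x))) :=
          Nat.mul_le_mul_right _ hBc
      _ = _ := by ring
  exact Nat.le_of_mul_le_mul_left h3 Fintype.card_pos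

/-- The inequality for vectors which are independent over `K'`. -/
theorem main_indep [FiniteDimensional k K] [Algebra.IsSeparable k K]
    [Finite (K →ₐ[k] K')]
    (hsplit : ∀ a : K, ((minpoly k a).map (algebraMap k K')).Splits)
    {m : ℕ} (x : Fin m → T)
    (hx : ∀ a : Fin m → K', (∀ φ : T →ₗ[Ω] Ω', ∑ i, algebraMap K' Ω' (a i) * φ (x i) = 0) →
      a = 0) :
    m ≤ finrank Ω (Submodule.span Ω (Set.range x)) *
      finrank K (Submodule.span K (Set.range x)) := by
  classical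
  letI : Fintype (K →ₐ[k] K') := Fintype.ofFinite _
  obtain ⟨B, hBc, hB⟩ := exists_rows (Ω := Ω) (Ω' := Ω') hsplit x
  have hfd : FiniteDimensional K (Submodule.span K (Set.range x)) :=
    FiniteDimensional.span_of_finite K (Set.finite_range x)
  let u := Module.finBasis K (Submodule.span K (Set.range x))
  have hxm : ∀ i, x i ∈ Submodule.span K (Set.range x) := fun i => Submodule.subset_span ⟨i, rfl⟩
  have hexp : ∀ i, x i = ∑ l, u.repr ⟨x i, hxm i⟩ l • (u l : T) := by
    intro i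
    have := congrArg (Submodule.subtype _) (u.sum_repr ⟨x i, hxm i⟩).symm
    rw [map_sum] at this
    exact this
  have h1 := cod_iInf (⊤ : Submodule K' (Fin m → K'))
    (fun b => ZZ (fun i j => u.repr ⟨x i, hxm i⟩ j) b) B
  have h2 : (⨅ b ∈ B, ZZ (fun i j => u.repr ⟨x i, hxm i⟩ j) b : Submodule K' (Fin m → K')) = ⊥ := by
    rw [eq_bot_iff]
    intro a ha
    simp only [Submodule.mem_iInf] at ha
    rw [Submodule.mem_bot]
    refine hx a (hB _ fun b hb φ hφ => ?_)
    have h3 := ZZ_le (Ω := Ω) (Ω' := Ω') x (fun j => (u j : T)) _ hexp (1 : K' ≃ₐ[k] K') b (ha b hb)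
    rw [one_smul] at h3
    exact h3 φ hφ
  have h3 := finrank_inf_add_cod (⊤ : Submodule K' (Fin m → K')) ⊥
  rw [inf_bot_eq, finrank_bot, finrank_top, finrank_fin_fun, zero_add] at h3
  rw [h2, h3] at h1
  refine h1.trans ?_
  calc ∑ b ∈ B, cod (⊤ : Submodule K' (Fin m → K')) (ZZ (fun i j => u.repr ⟨x i, hxm i⟩ j) b)
      ≤ ∑ _b ∈ B, finrank K (Submodule.span K (Set.range x)) :=
        Finset.sum_le_sum fun b _ => cod_ZZ _ b
    _ = B.card * finrank K (Submodule.span K (Set.range x)) := by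
        rw [Finset.sum_const, smul_eq_mul]
    _ ≤ _ := Nat.mul_le_mul_right _ hBc

end

end Pool.Agent.W_52423f_h69
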