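import Pool.Agent.W_52423f_h69.Fld

/-! Closures of finitely generated subgroups of vector spaces over `ℚ_p`. -/

set_option autoImplicit false
set_option linter.unusedSectionVars false
set_option linter.style.haveILetI false

namespace Pool.Agent.W_52423f_h69

open Module TensorProduct

section

variable {p : ℕ} [Fact p.Prime] {T : Type*} [AddCommGroup T] [Module ℚ_[p] T]
  [Module ℤ_[p] T] [IsScalarTower ℤ_[p] ℚ_[p] T]

theorem finrank_zp {m : ℕ} (x : Fin m → T) :
    Module.Finite ℤ_[p] (Submodule.span ℤ_[p] (Set.range x)) ∧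
    Module.Free ℤ_[p] (Submodule.span ℤ_[p] (Set.range x)) ∧
      finrank ℤ_[p] (Submodule.span ℤ_[p] (Set.range x)) =
        finrank ℚ_[p] (Submodule.span ℚ_[p] (Set.range x)) := by
  have hfin : Module.Finite ℤ_[p] (Submodule.span ℤ_[p] (Set.range x)) :=
    Module.Finite.span_of_finite ℤ_[p] (Set.finite_range x)
  have htf : Module.IsTorsionFree ℤ_[p] T := Module.IsTorsionFree.trans_faithfulSMul ℤ_[p] ℚ_[p] T
  have hfree : Module.Free ℤ_[p] (Submodule.span ℤ_[p] (Set.range x)) :=
    Module.free_of_finite_type_torsion_free'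
  refine ⟨hfin, hfree, ?_⟩
  let β := Module.finBasis ℤ_[p] (Submodule.span ℤ_[p] (Set.range x))
  have h1 : LinearIndependent ℤ_[p] (fun i => (β i : T)) :=
    β.linearIndependent.map' (Submodule.subtype _) (Submodule.ker_subtype _)
  have h2 : LinearIndependent ℚ_[p] (fun i => (β i : T)) :=
    (LinearIndependent.iff_fractionRing ℤ_[p] ℚ_[p]).1 h1
  have h3 : Submodule.span ℚ_[p] (Set.range x) =
      Submodule.span ℚ_[p] (Set.range fun i => (β i : T)) := by
    apply le_antisymm
    · rw [Submodule.span_le]
      rintro _ ⟨i, rfl⟩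
      have h4 : x i = ∑ l, β.repr ⟨x i, Submodule.subset_span ⟨i, rfl⟩⟩ l • (β l : T) := by
        have := congrArg (Submodule.subtype _)
          (β.sum_repr ⟨x i, Submodule.subset_span ⟨i, rfl⟩⟩).symm
        rw [map_sum] at this
        exact this
      rw [h4]
      refine Submodule.sum_mem _ fun l _ => ?_
      rw [← algebraMap_smul ℚ_[p]]
      exact Submodule.smul_mem _ _ (Submodule.subset_span ⟨l, rfl⟩)
    · rw [Submodule.span_le]
      rintro _ ⟨l, rfl⟩
      have h4 : Submodule.span ℤ_[p] (Set.range x) ≤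
          (Submodule.span ℚ_[p] (Set.range x)).restrictScalars ℤ_[p] :=
        Submodule.span_le.2 Submodule.subset_span
      exact h4 (β l).2
  rw [h3, finrank_span_eq_card h2, Fintype.card_fin]

variable [TopologicalSpace T] [IsTopologicalAddGroup T] [ContinuousSMul ℚ_[p] T] [T2Space T]

theorem closure_zspan {m : ℕ} (x : Fin m → T) :
    ((Submodule.span ℤ_[p] (Set.range x) : Submodule ℤ_[p] T) : Set T) =
      closure (Submodule.span ℤ (Set.range x) : Set T) := by
  have hcont : Continuous (fun c : Fin m → ℤ_[p] => ∑ i, c i • x i) := by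
    refine continuous_finsetSum _ fun i _ => ?_
    have h1 : (fun c : Fin m → ℤ_[p] => c i • x i) =
        fun c : Fin m → ℤ_[p] => ((c i : ℤ_[p]) : ℚ_[p]) • x i := by
      funext c
      exact (algebraMap_smul ℚ_[p] (c i) (x i)).symm
    rw [h1]
    exact (continuous_subtype_val.comp (continuous_apply i)).smul continuous_const
  have hrange : ((Submodule.span ℤ_[p] (Set.range x) : Submodule ℤ_[p] T) : Set T) =
      Set.range (fun c : Fin m → ℤ_[p] => ∑ i, c i • x i) := by
    ext y
    rw [SetLike.mem_coe, Submodule.mem_span_range_iff_exists_fun]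
    rfl
  have hrangeZ : ((Submodule.span ℤ (Set.range x) : Submodule ℤ T) : Set T) =
      Set.range (fun c : Fin m → ℤ => ∑ i, c i • x i) := by
    ext y
    rw [SetLike.mem_coe, Submodule.mem_span_range_iff_exists_fun]
    rfl
  apply le_antisymm
  · rw [hrange, hrangeZ]
    have hd : DenseRange (fun (c : Fin m → ℤ) (i : Fin m) => ((c i : ℤ) : ℤ_[p])) :=
      DenseRange.piMap fun _ => PadicInt.denseRange_intCast
    have h1 := hcont.range_subset_closure_image_dense hd
    refine h1.trans (closure_mono ?_)
    rintro _ ⟨_, ⟨c, rfl⟩, rfl⟩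
    refine ⟨c, ?_⟩
    refine Finset.sum_congr rfl fun i _ => ?_
    exact (Int.cast_smul_eq_zsmul ℤ_[p] (c i) (x i)).symm
  · have hclosed : IsClosed ((Submodule.span ℤ_[p] (Set.range x) : Submodule ℤ_[p] T) : Set T) := by
      rw [hrange]
      exact (isCompact_range hcont).isClosed
    refine closure_minimal ?_ hclosed
    intro y hy
    have h4 : Submodule.span ℤ (Set.range x) ≤
        (Submodule.span ℤ_[p] (Set.range x)).restrictScalars ℤ :=
      Submodule.span_le.2 Submodule.subset_span
    exact h4 hy

end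

end Pool.Agent.W_52423f_h69
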