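import Pool.Agent.W_52423f_h69.Col

/-! Functionals on which a field `K` acts through an embedding. -/

set_option autoImplicit false

namespace Pool.Agent.W_52423f_h69

open Module Polynomial

section

variable {k K K' Ω Ω' T : Type*} [Field k] [Field K] [Algebra k K] [Field K'] [Algebra k K']
  [Field Ω] [Field Ω'] [Algebra Ω Ω'] [Algebra K' Ω'] [Algebra k Ω] [Algebra k Ω']
  [IsScalarTower k K' Ω'] [IsScalarTower k Ω Ω'] [AddCommGroup T] [Module Ω T] [Module K T]
  [SMulCommClass Ω K T] [Module k T] [IsScalarTower k Ω T] [IsScalarTower k K T]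

variable (Ω Ω' T) in
/-- The functionals on which `K` acts through `b`. -/
def Row (b : K →ₐ[k] K') : Submodule Ω' (T →ₗ[Ω] Ω') where
  carrier := {φ | ∀ (a : K) (x : T), φ (a • x) = algebraMap K' Ω' (b a) * φ x}
  add_mem' := by
    intro φ ψ hφ hψ a x
    rw [LinearMap.add_apply, LinearMap.add_apply, hφ, hψ, mul_add]
  zero_mem' := by
    intro a x
    simp
  smul_mem' := by
    intro c φ hφ a x
    rw [LinearMap.smul_apply, LinearMap.smul_apply, hφ, smul_eq_mul, smul_eq_mul]
    ring

/-- Precomposition with the action of an element of `K`. -/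
def pre (Ω Ω' T : Type*) [Field Ω] [Field Ω'] [Algebra Ω Ω'] [AddCommGroup T] [Module Ω T]
    [Module K T] [SMulCommClass Ω K T] (a : K) : Module.End Ω' (T →ₗ[Ω] Ω') where
  toFun φ :=
    { toFun := fun x => φ (a • x)
      map_add' := fun x y => by rw [smul_add, map_add]
      map_smul' := fun c x => by rw [← smul_comm c a x, map_smul, RingHom.id_apply] }
  map_add' φ ψ := by
    ext x
    rfl
  map_smul' c φ := by
    ext x
    rfl

theorem pre_apply (a : K) (φ : T →ₗ[Ω] Ω') (x : T) : pre Ω Ω' T a φ x = φ (a • x) := rfl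

theorem aeval_pre (a : K) (g : k[X]) (φ : T →ₗ[Ω] Ω') (x : T) :
    aeval (pre Ω Ω' T a) (g.map (algebraMap k Ω')) φ x = φ ((aeval a g) • x) := by
  induction g using Polynomial.induction_on generalizing φ x with
  | C c =>
    rw [map_C, aeval_C, aeval_C, Module.algebraMap_end_apply, LinearMap.smul_apply,
      algebraMap_smul, algebraMap_smul, ← algebraMap_smul Ω c x, map_smul, algebraMap_smul]
  | add g h hg hh =>
    rw [Polynomial.map_add, map_add, map_add, LinearMap.add_apply, LinearMap.add_apply, hg, hh,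
      add_smul, map_add]
  | monomial n c h =>
    have e2 : (C c * X ^ (n + 1) : k[X]) = (C c * X ^ n) * X := by ring
    rw [e2]
    generalize (C c * X ^ n : k[X]) = q at h
    rw [Polynomial.map_mul, map_X, map_mul, aeval_X, Module.End.mul_apply, h, pre_apply, map_mul,
      aeval_X, mul_comm, mul_smul]

theorem iSup_row [FiniteDimensional k K] [Algebra.IsSeparable k K]
    (hsplit : ∀ a : K, ((minpoly k a).map (algebraMap k K')).Splits) (φ : T →ₗ[Ω] Ω') :
    φ ∈ ⨆ b : K →ₐ[k] K', Row Ω Ω' T b := by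
  classical
  let pb := Field.powerBasisOfFiniteOfSeparable k K
  obtain ⟨g, hg⟩ : ∃ g : k[X], g = minpoly k pb.gen := ⟨_, rfl⟩
  have hint : IsIntegral k pb.gen := Algebra.IsIntegral.isIntegral _
  have hmon : g.Monic := hg ▸ minpoly.monic hint
  have hsep : g.Separable := hg ▸ Algebra.IsSeparable.isSeparable k pb.gen
  obtain ⟨s, hs⟩ : ∃ s : Finset K', s = (g.map (algebraMap k K')).roots.toFinset := ⟨_, rfl⟩
  have hprod : g.map (algebraMap k K') = ∏ c ∈ s, (X - C c) := by
    have h1 := (hg ▸ hsplit pb.gen : (g.map (algebraMap k K')).Splits).eq_prod_roots_of_monic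
      (hmon.map _)
    have h2 : (g.map (algebraMap k K')).roots.Nodup :=
      nodup_roots (hsep.map)
    have h3 : s.val = (g.map (algebraMap k K')).roots := by
      rw [hs, Multiset.toFinset_val, h2.dedup]
    rw [Finset.prod_eq_multiset_prod, h3]
    exact h1
  have hprodΩ : g.map (algebraMap k Ω') = ∏ c ∈ s, (X - C (algebraMap K' Ω' c)) := by
    rw [IsScalarTower.algebraMap_eq k K' Ω', ← Polynomial.map_map, hprod, Polynomial.map_prod]
    simp
  have hne : s.Nonempty := by
    rw [Finset.nonempty_iff_ne_empty]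
    intro h0
    rw [h0, Finset.prod_empty] at hprod
    have h1 : (g.map (algebraMap k K')).natDegree = 0 := by rw [hprod, natDegree_one]
    rw [natDegree_map, hg] at h1
    exact absurd h1 (minpoly.natDegree_pos hint).ne'
  have hinj : Set.InjOn (algebraMap K' Ω') s := fun _ _ _ _ e => (algebraMap K' Ω').injective e
  let A : Module.End Ω' (T →ₗ[Ω] Ω') := pre Ω Ω' T pb.gen
  let L : K' → Module.End Ω' (T →ₗ[Ω] Ω') :=
    fun b => aeval A (Lagrange.basis s (algebraMap K' Ω') b)
  have hsum : ∑ b ∈ s, L b = 1 := by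
    show ∑ b ∈ s, aeval A (Lagrange.basis s (algebraMap K' Ω') b) = 1
    rw [← map_sum, Lagrange.sum_basis hinj hne, map_one]
  have hAL : ∀ b ∈ s, ∀ φ x, (L b φ) (pb.gen • x) = (algebraMap K' Ω' b) * (L b φ) x := by
    intro b hb φ x
    have h1 : (X - C (algebraMap K' Ω' b)) * Lagrange.basis s (algebraMap K' Ω') b =
        C (∏ c ∈ s.erase b, (algebraMap K' Ω' b - algebraMap K' Ω' c)⁻¹) *
          g.map (algebraMap k Ω') := by
      rw [hprodΩ, ← Finset.mul_prod_erase s _ hb, Lagrange.basis, map_prod]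
      simp only [Lagrange.basisDivisor]
      rw [Finset.prod_mul_distrib]
      ring
    have h2 : aeval A ((X - C (algebraMap K' Ω' b)) * Lagrange.basis s (algebraMap K' Ω') b) φ
        = 0 := by
      rw [h1, map_mul, Module.End.mul_apply]
      have h3 : aeval A (g.map (algebraMap k Ω')) φ = 0 := by
        refine LinearMap.ext fun y => ?_
        rw [aeval_pre, hg, minpoly.aeval, zero_smul, map_zero, LinearMap.zero_apply]
      rw [h3, map_zero]
    rw [map_mul, Module.End.mul_apply, map_sub, aeval_X, aeval_C, LinearMap.sub_apply,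
      Module.algebraMap_end_apply, sub_eq_zero] at h2
    have h3 := LinearMap.congr_fun h2 x
    rw [LinearMap.smul_apply, smul_eq_mul] at h3
    exact h3
  have hmem : ∀ b ∈ s, ∀ φ, L b φ ∈ ⨆ b : K →ₐ[k] K', Row Ω Ω' T b := by
    intro b hb φ
    have hb0 : aeval b (minpoly k pb.gen) = 0 := by
      rw [← hg, ← eval_map_algebraMap, hprod, eval_prod]
      exact Finset.prod_eq_zero hb (by simp)
    refine Submodule.mem_iSup_of_mem (pb.lift b hb0) ?_
    intro a
    have ha : a ∈ Algebra.adjoin k {pb.gen} := by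
      rw [pb.adjoin_gen_eq_top]
      exact Algebra.mem_top
    induction ha using Algebra.adjoin_induction with
    | mem y hy =>
      rw [Set.mem_singleton_iff] at hy
      subst hy
      intro x
      rw [pb.lift_gen]
      exact hAL b hb φ x
    | algebraMap c =>
      intro x
      rw [AlgHom.commutes, algebraMap_smul, ← algebraMap_smul Ω c x, map_smul,
        ← IsScalarTower.algebraMap_apply k K' Ω', algebraMap_smul, Algebra.smul_def]
    | add y z _ _ hy hz =>
      intro x
      rw [add_smul, map_add, hy, hz, map_add, map_add, add_mul]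
    | mul y z _ _ hy hz =>
      intro x
      rw [mul_smul, hy, hz, map_mul, map_mul, mul_assoc]
  have h1 : (∑ b ∈ s, L b) φ = φ := by
    rw [hsum]
    rfl
  rw [← h1, LinearMap.sum_apply]
  exact Submodule.sum_mem _ fun b hb => hmem b hb φ

variable (Ω') in
/-- Evaluation at a family of vectors. -/
def ev {m : ℕ} (x : Fin m → T) : (T →ₗ[Ω] Ω') →ₗ[Ω'] (Fin m → Ω') where
  toFun φ := fun i => φ (x i)
  map_add' _ _ := rfl
  map_smul' _ _ := rfl

theorem finrank_range_ev {m : ℕ} (x : Fin m → T) :
    finrank Ω' (LinearMap.range (ev (Ω := Ω) Ω' x)) ≤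
      finrank Ω (Submodule.span Ω (Set.range x)) := by
  have hfd : FiniteDimensional Ω (Submodule.span Ω (Set.range x)) :=
    FiniteDimensional.span_of_finite Ω (Set.finite_range x)
  let u := Module.finBasis Ω (Submodule.span Ω (Set.range x))
  have hx : ∀ i, x i ∈ Submodule.span Ω (Set.range x) := fun i => Submodule.subset_span ⟨i, rfl⟩
  have hexp : ∀ i, x i = ∑ l, u.repr ⟨x i, hx i⟩ l • (u l : T) := by
    intro i
    have := congrArg (Submodule.subtype _) (u.sum_repr ⟨x i, hx i⟩).symm
    rw [map_sum] at this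
    exact this
  have hle : LinearMap.range (ev (Ω := Ω) Ω' x) ≤ Submodule.span Ω'
      (Set.range fun l => (fun i => algebraMap Ω Ω' (u.repr ⟨x i, hx i⟩ l) : Fin m → Ω')) := by
    rintro _ ⟨φ, rfl⟩
    have h1 : ev (Ω := Ω) Ω' x φ = ∑ l, φ (u l : T) •
        (fun i => algebraMap Ω Ω' (u.repr ⟨x i, hx i⟩ l) : Fin m → Ω') := by
      funext i
      show φ (x i) = _
      rw [hexp i, map_sum, Finset.sum_apply]
      refine Finset.sum_congr rfl fun l _ => ?_
      rw [map_smul, Pi.smul_apply, smul_eq_mul, Algebra.smul_def, mul_comm]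
    rw [h1]
    exact Submodule.sum_mem _ fun l _ => Submodule.smul_mem _ _ (Submodule.subset_span ⟨l, rfl⟩)
  refine (Submodule.finrank_mono hle).trans ((finrank_range_le_card _).trans ?_)
  rw [Fintype.card_fin]

/-- A set `B` of at most `dim` embeddings such that the functionals belonging to `B` determine
all functionals on the span of the `x i`. -/
theorem exists_rows [FiniteDimensional k K] [Algebra.IsSeparable k K]
    [Fintype (K →ₐ[k] K')]
    (hsplit : ∀ a : K, ((minpoly k a).map (algebraMap k K')).Splits) {m : ℕ} (x : Fin m → T) :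
    ∃ B : Finset (K →ₐ[k] K'), B.card ≤ finrank Ω (Submodule.span Ω (Set.range x)) ∧
      ∀ c : Fin m → Ω', (∀ b ∈ B, ∀ φ ∈ Row Ω Ω' T b, ∑ i, c i * φ (x i) = 0) →
        ∀ ψ : T →ₗ[Ω] Ω', ∑ i, c i * ψ (x i) = 0 := by
  classical
  obtain ⟨B, hB, hs⟩ := exists_basis (fun b : K →ₐ[k] K' => (Row Ω Ω' T b).map (ev Ω' x))
    Finset.univ
  have hall : (⨆ b ∈ (Finset.univ : Finset (K →ₐ[k] K')), (Row Ω Ω' T b).map (ev Ω' x)) =
      LinearMap.range (ev (Ω := Ω) Ω' x) := by
    have h1 : (⨆ b : K →ₐ[k] K', Row Ω Ω' T b) = ⊤ := by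
      rw [eq_top_iff]
      exact fun φ _ => iSup_row hsplit φ
    rw [LinearMap.range_eq_map, ← h1, Submodule.map_iSup]
    simp
  rw [hall] at hB hs
  refine ⟨B, hB.trans (finrank_range_ev x), fun c hc ψ => ?_⟩
  -- the functional `c` on `Ω' ^ m`
  let F : (Fin m → Ω') →ₗ[Ω'] Ω' :=
    { toFun := fun y => ∑ i, c i * y i
      map_add' := fun y z => by simp [mul_add, Finset.sum_add_distrib]
      map_smul' := fun a y => by
        simp only [Pi.smul_apply, smul_eq_mul, RingHom.id_apply, Finset.mul_sum]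
        exact Finset.sum_congr rfl fun i _ => by ring }
  have h1 : (⨆ b ∈ B, (Row Ω Ω' T b).map (ev Ω' x)) ≤ LinearMap.ker F := by
    refine iSup₂_le fun b hb => ?_
    rintro _ ⟨φ, hφ, rfl⟩
    exact hc b hb φ hφ
  rw [hs] at h1
  exact h1 ⟨ψ, rfl⟩

end

end Pool.Agent.W_52423f_h69
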